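import Mathlib

set_option autoImplicit false

namespace Pool.Agent.Results.MP_df2971_lc.Counter

open FirstOrder Language

/-- Base `k` expansion, most significant digit first; `none` is the minus sign. -/
def word (k : ℕ) (n : ℤ) : List (Option ℕ) :=
  (if n < 0 then [none] else []) ++ (Nat.digits k n.natAbs).reverse.map some

def Recognized (k : ℕ) (X : Set ℤ) : Prop :=
  Language.IsRegular (T := Option (Fin k)) {w | ∃ n ∈ X, w.map (Option.map Fin.val) = word k n}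

noncomputable def V (k : ℕ) (n : ℤ) : ℤ := if n = 0 then 1 else k ^ multiplicity (k : ℤ) n

inductive Fn : ℕ → Type
  | add : Fn 2

inductive R1 : ℕ → Type
  | mem : R1 1

inductive R2 : ℕ → Type
  | lt : R2 2
  | pow : R2 1

def L1 : FirstOrder.Language := ⟨Fn, R1⟩

def L2 : FirstOrder.Language := ⟨Fn, R2⟩

/-- `(ℤ, +, X)`. -/
@[reducible] def S1 (X : Set ℤ) : L1.Structure ℤ where
  funMap | .add, v => v 0 + v 1
  RelMap | .mem, v => v 0 ∈ X

/-- `(ℤ, <, +, k ^ ℕ)`. -/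
@[reducible] def S2 (k : ℕ) : L2.Structure ℤ where
  funMap | .add, v => v 0 + v 1
  RelMap
    | .lt, v => v 0 < v 1
    | .pow, v => ∃ j : ℕ, v 0 = k ^ j

def Def1 (X : Set ℤ) (n : ℕ) (s : Set (Fin n → ℤ)) : Prop :=
  letI := S1 X; (Set.univ : Set ℤ).Definable L1 s

def Def2 (k n : ℕ) (s : Set (Fin n → ℤ)) : Prop :=
  letI := S2 k; (Set.univ : Set ℤ).Definable L2 s

/-- No formula has the order property. -/
def Stable (X : Set ℤ) : Prop :=
  letI := S1 X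
  ¬ ∃ (m n : ℕ) (φ : L1.Formula (Fin m ⊕ Fin n)), ∀ N : ℕ,
    ∃ (a : Fin N → Fin m → ℤ) (b : Fin N → Fin n → ℤ),
      ∀ i j, φ.Realize (Sum.elim (a i) (b j)) ↔ i < j

noncomputable abbrev v (x : ℤ) : ℕ∞ := emultiplicity 2 x

def X0 : Set ℤ := {x | ∃ j : ℕ, v x = (2 * j : ℕ)}

theorem vtop {x : ℤ} : v x = ⊤ ↔ x = 0 := by
  rw [emultiplicity_eq_top, Int.finiteMultiplicity_iff]
  simp

theorem key {t x y : ℤ} (h : v x = v y) (g : v (t + x) ≤ v t) : v (t + x) = v (t + y) := by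
  rw [emultiplicity_eq_emultiplicity_iff] at h ⊢
  rw [emultiplicity_le_emultiplicity_iff] at g
  refine fun k => ⟨fun l => (g k l).add ((h k).1 ((dvd_add_right (g k l)).1 l)), fun l => ?_⟩
  suffices 2 ^ k ∣ t from this.add ((h k).2 ((dvd_add_right this).1 l))
  induction k with
  | zero => simp
  | succ k ih =>
    obtain ⟨a, rfl⟩ := ih ((pow_dvd_pow _ k.le_succ).trans l)
    obtain ⟨b, rfl⟩ := (dvd_add_right (dvd_mul_right _ a)).1 ((pow_dvd_pow _ k.le_succ).trans l)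
    obtain ⟨c, rfl⟩ := (h k).2 (dvd_mul_right _ b)
    have h1 := h (k + 1)
    have h2 := g (k + 1)
    simp only [pow_succ, ← mul_add, mul_dvd_mul_iff_left (show (2 : ℤ) ^ k ≠ 0 by positivity)]
      at h1 h2 l ⊢
    omega

theorem scale {d x y : ℤ} (h : d ≠ 0) (g : v (d * x) = v (d * y)) : v x = v y := by
  simp only [v, emultiplicity_mul Int.prime_two] at g
  exact WithTop.add_left_cancel (mt vtop.1 h) g

def Rel {G : Type} [AddCommGroup G] (F : List (G →+ ℤ)) (M : ℤ) (e e' : G) : Prop :=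
  (∀ f ∈ F, v (f e) = v (f e')) ∧ ∃ g, e - e' = M • g

theorem Rel.symm {G : Type} [AddCommGroup G] {F : List (G →+ ℤ)} {M : ℤ} {e e' : G}
    (h : Rel F M e e') : Rel F M e' e :=
  ⟨fun f hf => (h.1 f hf).symm, h.2.elim fun g hg => ⟨-g, by rw [smul_neg, ← hg, neg_sub]⟩⟩

theorem ext {G : Type} [AddCommGroup G] (F : List (G × ℤ →+ ℤ)) {M : ℤ} (hM : M ≠ 0) :
    ∃ F' M', M' ≠ 0 ∧ ∀ e e' : G, Rel F' M' e e' → ∀ a, ∃ b, Rel F M (e, a) (e', b) := by
  let S := (AddMonoidHom.snd G ℤ :: F).filter (· (0, 1) ≠ 0)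
  let C := (S.map (· (0, 1))).prod
  have hC : C ≠ 0 := List.prod_ne_zero (by simp +contextual [S])
  let h (f : G × ℤ →+ ℤ) : G →+ ℤ := (C / f (0, 1)) • f.comp (.inl G ℤ)
  have h0 (f : G × ℤ →+ ℤ) (e a) : f (e, a) = a * f (0, 1) + f (e, 0) := by
    rw [← smul_eq_mul, ← map_zsmul, ← map_add]; simp
  have h1 (f) (hf : f ∈ S) : C / f (0, 1) * f (0, 1) = C :=
    Int.ediv_mul_cancel (List.dvd_prod (List.mem_map_of_mem hf))
  have h2 (f) (hf : f ∈ S) (e a) : C / f (0, 1) * f (e, a) = C * a + h f e := by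
    rw [h0 f e, mul_add, mul_left_comm, h1 f hf, mul_comm a]; rfl
  refine ⟨F.map (·.comp (.inl G ℤ)) ++ S.flatMap fun f => S.map fun g => h f - h g, C * M,
    mul_ne_zero hC hM, fun e e' ⟨h3, g, h4⟩ a => ?_⟩
  obtain ⟨i, hi, h5⟩ := Set.exists_max_image {f | f ∈ S} (fun f => v (C * a + h f e))
    (List.finite_toSet _) ⟨.snd G ℤ, by simp [S]⟩
  refine ⟨a + M * h i g, fun f hf => ?_, (C • g, -h i g), by
    simp [h4, smul_smul, mul_comm M]⟩
  by_cases c : f (0, 1) = 0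
  · rw [h0, h0 f e', c]
    simpa using h3 (f.comp (.inl G ℤ)) (List.mem_append_left _ (List.mem_map_of_mem hf))
  have hS : f ∈ S := by simp [S, hf, c]
  refine scale (d := C / f (0, 1)) (fun l => hC (by rw [← h1 f hS, l, zero_mul])) ?_
  have h6 := key (t := C * a + h i e) (h3 (h f - h i) (List.mem_append_right _
    (List.mem_flatMap.2 ⟨f, hS, List.mem_map_of_mem hi⟩))) (by simpa using h5 f hS)
  have h7 : h i e - h i e' = C * M * h i g := by rw [← map_sub, h4, map_zsmul, smul_eq_mul]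
  rw [h2 f hS, h2 f hS]
  convert h6 using 2 <;> simp only [AddMonoidHom.sub_apply] <;> linarith

theorem tame {β : Type} {n : ℕ} (φ : L1.BoundedFormula β n) : letI := S1 X0
    ∃ F M, M ≠ 0 ∧ ∀ e e' : (β → ℤ) × (Fin n → ℤ), Rel F M e e' →
      (φ.Realize e.1 e.2 ↔ φ.Realize e'.1 e'.2) := by
  let := S1 X0
  have ht {n : ℕ} (t : L1.Term (β ⊕ Fin n)) : ∃ f : (β → ℤ) × (Fin n → ℤ) →+ ℤ,
      ∀ e, t.realize (Sum.elim e.1 e.2) = f e := by
    induction t with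
    | var x =>
      rcases x with x | x
      exacts [⟨(Pi.evalAddMonoidHom _ x).comp (.fst _ _), fun _ => rfl⟩,
        ⟨(Pi.evalAddMonoidHom _ x).comp (.snd _ _), fun _ => rfl⟩]
    | func f ts ih =>
      cases f
      choose g hg using ih
      exact ⟨g 0 + g 1, fun e => congrArg₂ (· + ·) (hg 0 e) (hg 1 e)⟩
  induction φ with
  | falsum => exact ⟨[], 1, one_ne_zero, fun _ _ _ => Iff.rfl⟩
  | equal s t =>
    obtain ⟨f, hf⟩ := ht s
    obtain ⟨g, hg⟩ := ht t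
    refine ⟨[f - g], 1, one_ne_zero, fun e e' h => ?_⟩
    have := h.1 _ (List.mem_singleton_self _)
    simp only [BoundedFormula.Realize, hf, hg]
    rw [← sub_eq_zero, ← sub_eq_zero (a := f e'), ← vtop, ← vtop, ← AddMonoidHom.sub_apply, this]
    rfl
  | rel R ts =>
    cases R
    obtain ⟨f, hf⟩ := ht (ts 0)
    refine ⟨[f], 1, one_ne_zero, fun e e' h => ?_⟩
    change Term.realize _ _ ∈ X0 ↔ Term.realize _ _ ∈ X0
    simp only [hf, X0, Set.mem_setOf_eq, h.1 _ (List.mem_singleton_self _)]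
  | imp _ _ i1 i2 =>
    obtain ⟨F, M, h, h1⟩ := i1
    obtain ⟨F', M', h', h2⟩ := i2
    exact ⟨F ++ F', M * M', mul_ne_zero h h', fun e e' ⟨h3, g, h4⟩ => imp_congr
      (h1 _ _ ⟨fun f hf => h3 f (by simp [hf]), M' • g, by rw [h4, mul_smul]⟩)
      (h2 _ _ ⟨fun f hf => h3 f (by simp [hf]), M • g, by rw [h4, mul_comm, mul_smul]⟩)⟩
  | @all n φ ih =>
    obtain ⟨F, M, h, h1⟩ := ih
    let p : ((β → ℤ) × (Fin n → ℤ)) × ℤ →+ (β → ℤ) × (Fin (n + 1) → ℤ) :=
      .mk' (fun z => (z.1.1, Fin.snoc z.1.2 z.2)) fun x y => Prod.ext rfl (funext fun i => by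
        cases i using Fin.lastCases <;> simp)
    obtain ⟨F', M', h', h2⟩ := ext (F.map (·.comp p)) h
    have (e e') (r : Rel F' M' e e') (l : φ.all.Realize e'.1 e'.2) : φ.all.Realize e.1 e.2 := by
      rw [BoundedFormula.realize_all] at l ⊢
      intro a
      obtain ⟨b, h3, g, h4⟩ := h2 e e' r a
      exact (h1 (p (e, a)) (p (e', b)) ⟨fun f hf => h3 _ (List.mem_map_of_mem hf), p g, by
        rw [← map_sub, h4, map_zsmul]⟩).2 (l b)
    exact ⟨F', M', h', fun e e' r => ⟨this _ _ r.symm, this _ _ r⟩⟩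

theorem sep {s : Set (Fin 1 → ℤ)} (h : Def1 X0 1 s) (h1 : ∀ j : ℕ, ![2 ^ j] ∈ s) :
    ∃ y < 0, ![y] ∈ s := by
  let := S1 X0
  obtain ⟨φ, rfl⟩ := Set.definable_iff_exists_formula_sum.1 h
  obtain ⟨F, M, hM, h2⟩ := tame φ
  let u : ((Set.univ : Set ℤ) ⊕ Fin 1 → ℤ) × (Fin 0 → ℤ) := (Sum.elim 0 1, 0)
  let w : ((Set.univ : Set ℤ) ⊕ Fin 1 → ℤ) × (Fin 0 → ℤ) := (Sum.elim (↑) 0, 0)
  have h3 (x : ℤ) (d) : (Sum.elim (↑) ![x], d) = w + x • u :=
    Prod.ext (funext fun i => by rcases i with i | i <;> simp [u, w]) (Subsingleton.elim _ _)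
  have h4 (f : _ →+ ℤ) : ∀ᶠ j : ℕ in .atTop, ∀ᶠ J : ℕ in .atTop,
      v (f (w + (2 ^ j : ℤ) • u)) = v (f (w + (2 ^ j - M ^ 2 * 2 ^ J : ℤ) • u)) := by
    simp only [map_add, map_zsmul, smul_eq_mul]
    by_cases c : f u = 0
    · simp [c]
    filter_upwards [Filter.eventually_gt_atTop (f w).natAbs] with j hj
    have h5 : f w + 2 ^ j * f u ≠ 0 := fun l => by
      have := congrArg Int.natAbs (eq_neg_of_add_eq_zero_left l)
      simp only [Int.natAbs_neg, Int.natAbs_mul, Int.natAbs_pow] at this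
      have := j.lt_two_pow_self
      nlinarith [Int.natAbs_pos.2 c, show Int.natAbs 2 ^ j = 2 ^ j from rfl]
    obtain ⟨m, hm⟩ := ENat.ne_top_iff_exists.1 (mt vtop.1 h5)
    filter_upwards [Filter.eventually_gt_atTop m] with J hJ
    rw [sub_mul, ← add_sub_assoc, sub_eq_neg_add]
    refine (emultiplicity_add_of_gt ?_).symm
    refine hm.ge.trans_lt ((Nat.cast_lt.2 hJ).trans_le
      (le_emultiplicity_of_pow_dvd (a := (2 : ℤ)) ?_))
    exact ⟨-M ^ 2 * f u, by ring⟩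
  obtain ⟨j, hj⟩ := ((List.finite_toSet F).eventually_all.2 fun f _ => h4 f).exists
  obtain ⟨J, h5, h6⟩ := (((List.finite_toSet F).eventually_all.2 hj).and
    (Filter.eventually_gt_atTop j)).exists
  refine ⟨2 ^ j - M ^ 2 * 2 ^ J, ?_, (h2 (Sum.elim (↑) ![2 ^ j], _)
    (Sum.elim (↑) ![_], _) ⟨fun f hf => by rw [h3, h3]; exact h5 f hf, (M * 2 ^ J) • u, ?_⟩).1 (h1 j)⟩
  · have : (2 : ℤ) ^ j < 2 ^ J := pow_lt_pow_right₀ one_lt_two h6
    nlinarith [one_le_sq_iff_one_le_abs M |>.2 (Int.one_le_abs hM), show (0 : ℤ) < 2 ^ j by positivity]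
  · rw [h3, h3, add_sub_add_left_eq_sub, ← sub_smul, smul_smul]
    congr 1
    ring

def δ (q : Fin 5) : Option ℕ → Fin 5
  | none => if q = 0 then 1 else 4
  | some 0 => ![4, 4, 3, 2, 4] q
  | some 1 => ![2, 2, 2, 2, 4] q
  | _ => 4

theorem wsucc {n : ℤ} {d : ℕ} (m : ℤ) (hd : d < 2) (h : n.natAbs = 2 * m.natAbs + d) (h0 : n ≠ 0)
    (h1 : n < 0 ↔ m < 0) : word 2 n = word 2 m ++ [some d] := by
  rw [word, word, Nat.digits_def' one_lt_two (Int.natAbs_pos.2 h0), show n.natAbs % 2 = d by omega,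
    show n.natAbs / 2 = m.natAbs by omega]
  simp [h1]

theorem odd {n : ℤ} (h : n % 2 = 1) : n ∈ X0 := ⟨0, emultiplicity_eq_zero.2 (by omega)⟩

theorem even {n : ℤ} (h : n ≠ 0) : 2 * n ∈ X0 ↔ n ∉ X0 := by
  obtain ⟨m, hm⟩ := ENat.ne_top_iff_exists.1 (mt vtop.1 h)
  have : v 2 = 1 := by simpa using emultiplicity_pow_self_of_prime Int.prime_two 1
  simp only [X0, Set.mem_setOf_eq, emultiplicity_mul Int.prime_two, this, ← hm]
  norm_cast
  exact ⟨fun ⟨a, h⟩ ⟨b, g⟩ => by omega, fun h => ⟨(m + 1) / 2, by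
    by_contra l; exact h ⟨m / 2, by omega⟩⟩⟩

open Classical in
theorem runA (n : ℤ) (h : n ≠ 0) : (word 2 n).foldl δ 0 = if n ∈ X0 then 2 else 3 := by
  induction e : n.natAbs using Nat.strong_induction_on generalizing n with
  | _ k ih =>
    obtain rfl | rfl | l : n = 1 ∨ n = -1 ∨ 1 < k := by omega
    · rw [if_pos (odd rfl)]; simp [word, δ]
    · rw [if_pos (odd rfl)]; simp [word, δ]
    obtain ⟨m, h1, h2, h3⟩ : ∃ m : ℤ, m.natAbs = k / 2 ∧ (n < 0 ↔ m < 0) ∧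
        (k % 2 = 0 → n = 2 * m) := by
      by_cases l : n < 0
      exacts [⟨-(k / 2 : ℕ), by omega⟩, ⟨(k / 2 : ℕ), by omega⟩]
    rw [wsucc m (d := k % 2) (by omega) (by omega) h h2, List.foldl_concat,
      ih _ (by omega) m (by omega) h1]
    obtain l | l : k % 2 = 0 ∨ k % 2 = 1 := by omega
    · rw [l, h3 l]
      simp only [even (show m ≠ 0 by omega)]
      split_ifs <;> rfl
    · rw [l, if_pos (odd (n := n) (by omega))]
      split_ifs <;> rfl

theorem runB (w : List (Option ℕ)) : (w.foldl δ 0 = 0 → w = []) ∧ (w.foldl δ 0 = 1 → w = [none]) ∧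
    (w.foldl δ 0 = 2 ∨ w.foldl δ 0 = 3 → ∃ n ≠ 0, w = word 2 n) := by
  induction w using List.reverseRecOn with
  | nil => simp
  | append_singleton w a ih =>
    rw [List.foldl_concat]
    generalize w.foldl δ 0 = q at ih
    have (d : ℕ) (hd : d < 2) (h : q = 2 ∨ q = 3) : ∃ n ≠ 0, w ++ [some d] = word 2 n := by
      obtain ⟨n, h, rfl⟩ := ih.2.2 h
      by_cases l : n < 0
      · exact ⟨2 * n - d, by omega, (wsucc n hd (by omega) (by omega) (by omega)).symm⟩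
      · exact ⟨2 * n + d, by omega, (wsucc n hd (by omega) (by omega) (by omega)).symm⟩
    rcases a with _ | _ | _ | a <;> fin_cases q <;> simp_all [δ]
    exacts [⟨1, by simp [word]⟩, ⟨-1, by simp [word]⟩]

theorem result : ∃ X : Set ℤ, Recognized 2 X ∧ ¬ Stable X ∧ ¬ (∀ n s, Def1 X n s ↔ Def2 2 n s) ∧
    ¬ Def1 X 2 {x | x 1 = V 2 (x 0)} ∧ ¬ Def1 X 1 {x | 0 ≤ x 0} := by
  refine ⟨X0, ⟨Fin 5, inferInstance, ⟨fun q a => δ q (a.map Fin.val), 0, {2}⟩, ?_⟩, fun h => h ?_,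
    fun h => ?_, fun h => ?_, fun h => ?_⟩
  · ext w
    rw [DFA.mem_accepts, DFA.eval, DFA.evalFrom, ← List.foldl_map (g := δ)]
    refine ⟨fun h => ?_, fun ⟨n, h, e⟩ => ?_⟩
    · obtain ⟨n, h1, e⟩ := (runB _).2.2 (.inl h)
      refine ⟨n, by_contra fun l => ?_, e⟩
      rw [e, runA n h1, if_neg l] at h
      simp at h
    · rw [e, runA n (by
        rintro rfl; exact h.elim fun j l => ENat.coe_ne_top _ (l.symm.trans (vtop.2 rfl))), if_pos h]
      rfl
  · refine ⟨1, 1, Relations.formula₁ (L := L1) R1.mem (Functions.apply₂ (L := L1) Fn.add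
      (.var (.inl 0)) (.var (.inr 0))), fun N => ⟨fun i _ => 2 ^ (2 * i + 2 : ℕ),
        fun j _ => 2 ^ (2 * j + 1 : ℕ), fun i j => ?_⟩⟩
    change (2 ^ (2 * i + 2 : ℕ) + 2 ^ (2 * j + 1 : ℕ) : ℤ) ∈ X0 ↔ i.1 < j.1
    simp only [X0, Set.mem_setOf_eq]
    rw [v, emultiplicity_add_eq_min] <;> simp only [emultiplicity_pow_self_of_prime Int.prime_two]
    · rw [← Nat.mono_cast.map_min]
      norm_cast
      exact ⟨fun ⟨a, h⟩ => by omega, fun h => ⟨i + 1, by omega⟩⟩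
    · norm_cast
      omega
  · obtain ⟨y, h1, j, h2⟩ := sep (s := {x | ∃ j : ℕ, x 0 = (2 : ℕ) ^ j}) ((h _ _).2
      ⟨Relations.formula₁ (L := L2[[(Set.univ : Set ℤ)]]) (.inl R2.pow) (.var 0), rfl⟩)
      fun j => ⟨j, rfl⟩
    have : y = 2 ^ j := h2
    have : (0 : ℤ) < 2 ^ j := by positivity
    omega
  · let := S1 X0
    obtain ⟨y, h1, h2⟩ := sep (h.preimage_comp fun _ => 0) fun j => by
      simp [V, multiplicity_pow_self_of_prime Int.prime_two]
    have : y = V 2 y := h2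
    rw [V, if_neg h1.ne] at this
    exact h1.not_gt (this ▸ by positivity)
  · obtain ⟨y, h1, h2⟩ := sep h fun j => by simp
    exact h1.not_ge h2

end Pool.Agent.Results.MP_df2971_lc.Counter
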